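import Pool.Agent.H80.DIC.Treer
import Pool.Agent.H42.D2.Vlz
import Pool.Agent.H19.FLN.F1s

/-!
# The parts with two contact coordinates and a static target, or a target of slope one

`CasP`: the cases at a window for all slopes with `Φ`, under a condition, with some property. `CelP`:
a class theorem for all slopes with `Φ`, with some property. The named parts, and `lV0A_of1`,
`lV0B_of1`, `lV01_of1`: `LV0A 4`, `LV0B 4`, `LV01 4` from the named parts.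
-/

set_option autoImplicit false

namespace Pool.PKG

open Pool.GEN
open Pool.LA91 (sumQ HerQ aePG_sum her_sum)

section

variable {ι ι' : Type} {n : ℕ} {I : Set ℕ} {h : ℝ} {Sl : ℕ → ℝ} {κ : ℕ → Kg}
  {Q : PropG n ι} {Q' : PropG n ι'} {W : PropW n}

/-- Cases with more properties at hand. -/
theorem CasW.inl (H : CasW n I h Sl κ Q W) : CasW n I h Sl κ (sumQ Q Q') W := by
  intro S P θ c Pt r L T G g hg hq hW
  obtain ⟨i, hi, Lm, Z, h1, h2⟩ := H S P θ c Pt r L T G g hg (allQ_inl hq) hW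
  exact ⟨i, hi, Lm, Z, h1.inl, h2⟩

theorem CasW.inr (H : CasW n I h Sl κ Q' W) : CasW n I h Sl κ (sumQ Q Q') W := by
  intro S P θ c Pt r L T G g hg hq hW
  obtain ⟨i, hi, Lm, Z, h1, h2⟩ := H S P θ c Pt r L T G g hg (allQ_inr hq) hW
  exact ⟨i, hi, Lm, Z, h1.inr, h2⟩

end

/-- **The cases at a window**, for all slopes with `Φ`, under the condition `W Sl a` for all `a`, with
some property. -/
def CasP (n : ℕ) (I : Set ℕ) (κ : ℕ → Kg) (Φ : (ℕ → ℝ) → Prop) {L₀ : Type}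
    (W : (ℕ → ℝ) → L₀ → PropW n) : Prop :=
  ∃ (ι : Type) (_ : Countable ι) (Q : PropG n ι), AePG n Q ∧ HerQ Q ∧
    ∀ h : ℝ, 0 < h → h ≤ 1 → ∀ Sl : ℕ → ℝ, Φ Sl → ∀ a : L₀, CasW n I h Sl κ Q (W Sl a)

/-- **A class theorem** of the place `i`, for all slopes with `Φ`, under a condition with amounts, with
some property. -/
def CelP (n i : ℕ) (κ : ℕ → Kg) (Φ : (ℕ → ℝ) → Prop) {Lm : Type}
    (Z : (ℕ → ℝ) → Lm → PropW n) : Prop :=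
  ∃ (ι : Type) (_ : Countable ι) (Q : PropG n ι), AePG n Q ∧ HerQ Q ∧
    ∀ h : ℝ, 0 < h → h ≤ 1 → ∀ Sl : ℕ → ℝ, Φ Sl → CelZ n i h Sl κ Q (Z Sl)

section

variable {n i : ℕ} {I : Set ℕ} {κ : ℕ → Kg} {Φ Φ' : (ℕ → ℝ) → Prop} {L₀ L₁ Lm : Type}

/-- From a class theorem over `CelQH`. -/
theorem casP_h {ι : Type} [Countable ι] {Q : PropG n ι} (hQ : AePG n Q) (hh : HerQ Q) (hi : i ∈ I)
    (H : ∀ h : ℝ, 0 < h → h ≤ 1 → ∀ Sl : ℕ → ℝ, Φ Sl → CelQH n i h Sl κ Q) :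
    CasP n I κ Φ (fun _ (_ : Unit) => TruW n) :=
  ⟨ι, inferInstance, Q, hQ, hh, fun h h0 h1 Sl hS _ =>
    CasW.leaf hi (H h h0 h1 Sl hS).cz fun _ _ _ _ _ _ _ _ _ _ _ _ _ _ => trivial⟩

/-- From a class theorem of a void kind of windows. -/
theorem casP_v {ι : Type} [Countable ι] {Q : PropG n ι} (hQ : AePG n Q) (hh : HerQ Q) (hi : i ∈ I)
    (H : ∀ h : ℝ, 0 < h → h ≤ 1 → ∀ Sl : ℕ → ℝ, Φ Sl → VoidQH n h Sl κ Q) :
    CasP n I κ Φ (fun _ (_ : Unit) => TruW n) :=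
  ⟨ι, inferInstance, Q, hQ, hh, fun h h0 h1 Sl hS _ =>
    CasW.leaf hi ((H h h0 h1 Sl hS).vz.cel i) fun _ _ _ _ _ _ _ _ _ _ _ _ _ _ => trivial⟩

theorem CasP.mono {W : (ℕ → ℝ) → L₀ → PropW n} (H : CasP n I κ Φ W)
    (hΦ : ∀ Sl, Φ' Sl → Φ Sl) : CasP n I κ Φ' W := by
  obtain ⟨ι, hc, Q, hQ, hh, H⟩ := H
  exact ⟨ι, hc, Q, hQ, hh, fun h h0 h1 Sl hS => H h h0 h1 Sl (hΦ Sl hS)⟩

/-- **A weaker condition.** -/
theorem CasP.imp {W : (ℕ → ℝ) → L₀ → PropW n} {W' : (ℕ → ℝ) → L₁ → PropW n} (H : CasP n I κ Φ W)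
    (f : L₁ → L₀) (hW : ∀ Sl a S P θ c Pt r L T G g, W' Sl a S P θ c Pt r L T κ G g →
      W Sl (f a) S P θ c Pt r L T κ G g) : CasP n I κ Φ W' := by
  obtain ⟨ι, hc, Q, hQ, hh, H⟩ := H
  exact ⟨ι, hc, Q, hQ, hh, fun h h0 h1 Sl hS a => (H h h0 h1 Sl hS (f a)).imp
    fun _ _ _ _ _ _ _ _ _ _ _ _ hw => hW Sl a _ _ _ _ _ _ _ _ _ _ hw⟩

/-- **Two ranges of the slopes.** -/
theorem CasP.num {W : (ℕ → ℝ) → L₀ → PropW n} (H : CasP n I κ Φ W) (H' : CasP n I κ Φ' W) :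
    CasP n I κ (fun Sl => Φ Sl ∨ Φ' Sl) W := by
  obtain ⟨ι, hc, Q, hQ, hh, H⟩ := H
  obtain ⟨ι', hc', Q', hQ', hh', H'⟩ := H'
  refine ⟨ι ⊕ ι', inferInstance, sumQ Q Q', aePG_sum hQ hh hQ', her_sum hh hh',
    fun h h0 h1 Sl hS a => ?_⟩
  rcases hS with hS | hS
  · exact (H h h0 h1 Sl hS a).inl
  · exact (H' h h0 h1 Sl hS a).inr

/-- **Two cases.** -/
theorem CasP.or {W : (ℕ → ℝ) → L₀ → PropW n} (Y : (ℕ → ℝ) → L₀ → PropW n)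
    (H : CasP n I κ Φ (fun Sl a => AndW (W Sl a) (Y Sl a)))
    (H' : CasP n I κ Φ (fun Sl a => AndW (W Sl a) (NotW (Y Sl a)))) : CasP n I κ Φ W := by
  obtain ⟨ι, hc, Q, hQ, hh, H⟩ := H
  obtain ⟨ι', hc', Q', hQ', hh', H'⟩ := H'
  exact ⟨ι ⊕ ι', inferInstance, sumQ Q Q', aePG_sum hQ hh hQ', her_sum hh hh',
    fun h h0 h1 Sl hS a => CasW.or (Y Sl a) (H h h0 h1 Sl hS a).inl (H' h h0 h1 Sl hS a).inr⟩

/-- **One place is settled unless one of its conditions fails.** -/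
theorem CelP.cas {Z : (ℕ → ℝ) → Lm → PropW n} (H : CelP n i κ Φ Z) (hi : i ∈ I)
    (H' : CasP n I κ Φ (fun Sl lam => NotW (Z Sl lam))) :
    CasP n I κ Φ (fun _ (_ : Unit) => TruW n) := by
  obtain ⟨ι, hc, Q, hQ, hh, H⟩ := H
  obtain ⟨ι', hc', Q', hQ', hh', H'⟩ := H'
  exact ⟨ι ⊕ ι', inferInstance, sumQ Q Q', aePG_sum hQ hh hQ', her_sum hh hh',
    fun h h0 h1 Sl hS a => CasW.cel hi (H h h0 h1 Sl hS).inl fun lam =>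
      ((H' h h0 h1 Sl hS lam).inr).imp fun _ _ _ _ _ _ _ _ _ _ _ _ hw => hw.2⟩

end

end Pool.PKG

namespace Pool.ALT

open Pool.PKG Pool.LA91

variable {n i : ℕ} {I : Set ℕ} {κ : ℕ → Kg} {Φ Φ' : (ℕ → ℝ) → Prop} {L₀ : Type}
  {W : (ℕ → ℝ) → L₀ → PropW n}

/-- **Full rate and small rate**: the numbers of the admissible families. -/
theorem _root_.Pool.PKG.CasP.rt (Adm : (ℕ → ℝ) → AltJ → PropW n) (β : (ℕ → ℝ) → ℝ)
    (hA : CasP n I κ Φ (fun Sl a => AndW (W Sl a) (FulA (Adm Sl) (β Sl))))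
    (hB : CasP n I κ Φ (fun Sl (a : L₀ × PosR × ℕ) =>
      AndW (W Sl a.1) (LowR (Adm Sl) (β Sl - a.2.1) a.2.2))) : CasP n I κ Φ W := by
  obtain ⟨ι, hc, Q, hQ, hh, H⟩ := hA
  obtain ⟨ι', hc', Q', hQ', hh', H'⟩ := hB
  refine ⟨(ι ⊕ ι') ⊕ AltI, inferInstance, sumQ (sumQ Q Q') (AltQ : PropG n AltI),
    aePG_sum (aePG_sum hQ hh hQ') (her_sum hh hh') (aePG_alt n),
    her_sum (her_sum hh hh') (her_alt n), fun h h0 h1 Sl hS a => ?_⟩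
  refine CasW.rt (Adm Sl) (β Sl) (fun _ _ _ _ _ _ _ _ _ _ hq => allQ_inr hq)
    (H h h0 h1 Sl hS a).inl.inl fun β' hβ' D => ?_
  refine ((H' h h0 h1 Sl hS (a, ⟨β Sl - β', by linarith⟩, D)).inr.inl).imp
    fun _ _ _ _ _ _ _ _ _ _ _ _ hw => ⟨hw.1, ?_⟩
  have e : β Sl - (β Sl - β') = β' := by ring
  show LowR (Adm Sl) (β Sl - (β Sl - β')) D _ _ _ _ _ _ _ _ _ _ _
  rw [e]
  exact hw.2

end Pool.ALT

namespace Pool.ASM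

open Pool.GEN Pool.PKG Pool.ALT Pool.LA91

/-! ### The ranges of the slopes -/

/-- The numbers of `LV0A`: `u` is the place 2, steep, the target is static. -/
def NAs (Sl : ℕ → ℝ) : Prop := Sl 0 = 1 ∧ Sl 1 = 1 ∧ 2 < Sl 2 ∧ 2 ≤ Sl 3

/-- The numbers of `LV0A`, `u` thin. -/
def NAt (Sl : ℕ → ℝ) : Prop := Sl 0 = 1 ∧ Sl 1 = 1 ∧ 1 < Sl 2 ∧ 2 ≤ Sl 3

/-- The numbers of `LV0B`: `u` is the place 1, steep, the target is static. -/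
def NBs (Sl : ℕ → ℝ) : Prop := Sl 0 = 1 ∧ Sl 2 = 1 ∧ 2 < Sl 1 ∧ 2 ≤ Sl 3

/-- The numbers of `LV0B`, `u` thin. -/
def NBt (Sl : ℕ → ℝ) : Prop := Sl 0 = 1 ∧ Sl 2 = 1 ∧ 1 < Sl 1 ∧ 2 ≤ Sl 3

/-- The numbers of `LV01`: `u` is the place 2, steep, the target has slope one. -/
def N1s (Sl : ℕ → ℝ) : Prop := Sl 0 = 1 ∧ Sl 1 = 1 ∧ 2 < Sl 2 ∧ Sl 3 = 1

/-- The numbers of `LV01`: `u` is the place 2, thin. -/
def N1t (Sl : ℕ → ℝ) : Prop := Sl 0 = 1 ∧ Sl 1 = 1 ∧ 1 < Sl 2 ∧ Sl 3 = 1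

/-- The numbers of `LV01`: `u` is the place 1, steep, the target has slope one. -/
def M1s (Sl : ℕ → ℝ) : Prop := Sl 0 = 1 ∧ Sl 2 = 1 ∧ 2 < Sl 1 ∧ Sl 3 = 1

/-- The numbers of `LV01`: `u` is the place 1, thin. -/
def M1t (Sl : ℕ → ℝ) : Prop := Sl 0 = 1 ∧ Sl 2 = 1 ∧ 1 < Sl 1 ∧ Sl 3 = 1

/-! ### The named parts -/

/-- **Full rate**: the first jet of the place `r` is few. -/
def PartA (r : ℕ) (κ : ℕ → Kg) (Φ : (ℕ → ℝ) → Prop) (Adm : (ℕ → ℝ) → AltJ → PropW 4)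
    (β : (ℕ → ℝ) → ℝ) : Prop :=
  ∃ (ι : Type) (_ : Countable ι) (Q : PropG 4 ι), AePG 4 Q ∧ HerQ Q ∧
    ∀ h : ℝ, 0 < h → h ≤ 1 → ∀ Sl : ℕ → ℝ, Φ Sl →
      F1US 4 r h Sl κ Q (fun b : PosR × ℕ => FulR (Adm Sl) (β Sl) b.1 b.2)

/-- **Small rate, void**: no dead or alive. -/
def PartB (κ : ℕ → Kg) (Φ : (ℕ → ℝ) → Prop) (Adm : (ℕ → ℝ) → AltJ → PropW 4)
    (β : (ℕ → ℝ) → ℝ) : Prop :=
  ∃ (ι : Type) (_ : Countable ι) (Q : PropG 4 ι), AePG 4 Q ∧ HerQ Q ∧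
    ∀ h : ℝ, 0 < h → h ≤ 1 → ∀ Sl : ℕ → ℝ, Φ Sl → ∀ (b : PosR) (D : ℕ),
      VoidZ 4 h Sl κ Q (fun e : PosR => LowE (Adm Sl) (β Sl - b) D e)

/-- **Small rate**: the first jet of the place `r` is few. -/
def PartC (r : ℕ) (κ : ℕ → Kg) (Φ : (ℕ → ℝ) → Prop) (Adm : (ℕ → ℝ) → AltJ → PropW 4)
    (β : (ℕ → ℝ) → ℝ) : Prop :=
  ∃ (ι : Type) (_ : Countable ι) (Q : PropG 4 ι), AePG 4 Q ∧ HerQ Q ∧
    ∀ h : ℝ, 0 < h → h ≤ 1 → ∀ Sl : ℕ → ℝ, Φ Sl → ∀ (b : PosR) (D : ℕ),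
      F1US 4 r h Sl κ Q (fun e : PosR => LowE (Adm Sl) (β Sl - b) D e)

/-- **Full rate, void.** -/
def PartV (κ : ℕ → Kg) (Φ : (ℕ → ℝ) → Prop) (Adm : (ℕ → ℝ) → AltJ → PropW 4)
    (β : (ℕ → ℝ) → ℝ) : Prop :=
  ∃ (ι : Type) (_ : Countable ι) (Q : PropG 4 ι), AePG 4 Q ∧ HerQ Q ∧
    ∀ h : ℝ, 0 < h → h ≤ 1 → ∀ Sl : ℕ → ℝ, Φ Sl →
      VoidZ 4 h Sl κ Q (fun b : PosR × ℕ => FulR (Adm Sl) (β Sl) b.1 b.2)

/-- The cases at the windows with the numbers `Φ`, without a condition. -/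
def PartW (r : ℕ) (κ : ℕ → Kg) (Φ : (ℕ → ℝ) → Prop) : Prop :=
  CasP 4 {r} κ Φ (fun _ (_ : Unit) => TruW 4)

section

variable {r : ℕ} {κ : ℕ → Kg} {Φ Φ' : (ℕ → ℝ) → Prop} {Adm : (ℕ → ℝ) → AltJ → PropW 4}
  {β : (ℕ → ℝ) → ℝ}

theorem PartA.cas (H : PartA r κ Φ Adm β) (hr : 1 ≤ r) (hr4 : r < 4) (hκ : ∀ l < r, κ l = .one)
    (hκt : κ r = .stp) (hs : ∀ Sl, Φ Sl → 2 < Sl r) :
    CasP 4 {r} κ Φ (fun Sl (_ : Unit) => AndW (TruW 4) (FulA (Adm Sl) (β Sl))) := by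
  obtain ⟨ι, hc, Q, hQ, hh, H⟩ := H
  exact ⟨ι ⊕ (ℕ × ℕ × ℚ × ℚ), inferInstance, sumQ Q FaQ, aePG_sum hQ hh (aePG_fa 4),
    her_sum hh (her_fa 4), fun h h0 h1 Sl hS _ =>
    CasW.leaf rfl (celZ_f1s hr hr4 hκ hκt (hs Sl hS) (H h h0 h1 Sl hS))
      fun _ _ _ _ _ _ _ _ _ _ _ _ hW b => hW.2 _ _ b.1.2⟩

theorem PartV.cas (H : PartV κ Φ Adm β) :
    CasP 4 {r} κ Φ (fun Sl (_ : Unit) => AndW (TruW 4) (FulA (Adm Sl) (β Sl))) := by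
  obtain ⟨ι, hc, Q, hQ, hh, H⟩ := H
  exact ⟨ι, hc, Q, hQ, hh, fun h h0 h1 Sl hS _ =>
    CasW.leaf rfl ((H h h0 h1 Sl hS).cel r)
      fun _ _ _ _ _ _ _ _ _ _ _ _ hW b => hW.2 _ _ b.1.2⟩

theorem PartB.cas (H : PartB κ Φ Adm β) :
    CasP 4 {r} κ Φ (fun Sl (a : Unit × PosR × ℕ) =>
      AndW (TruW 4) (LowR (Adm Sl) (β Sl - a.2.1) a.2.2)) := by
  obtain ⟨ι, hc, Q, hQ, hh, H⟩ := H
  exact ⟨ι, hc, Q, hQ, hh, fun h h0 h1 Sl hS a =>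
    CasW.leaf rfl ((H h h0 h1 Sl hS a.2.1 a.2.2).cel r)
      fun _ _ _ _ _ _ _ _ _ _ _ _ hW e => hW.2.e e⟩

theorem PartC.cas (H : PartC r κ Φ Adm β) (hr : 1 ≤ r) (hr4 : r < 4) (hκ : ∀ l < r, κ l = .one)
    (hκt : κ r = .stp) (hs : ∀ Sl, Φ Sl → 2 < Sl r) :
    CasP 4 {r} κ Φ (fun Sl (a : Unit × PosR × ℕ) =>
      AndW (TruW 4) (LowR (Adm Sl) (β Sl - a.2.1) a.2.2)) := by
  obtain ⟨ι, hc, Q, hQ, hh, H⟩ := H
  exact ⟨ι ⊕ (ℕ × ℕ × ℚ × ℚ), inferInstance, sumQ Q FaQ, aePG_sum hQ hh (aePG_fa 4),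
    her_sum hh (her_fa 4), fun h h0 h1 Sl hS a =>
    CasW.leaf rfl (celZ_f1s hr hr4 hκ hκt (hs Sl hS) (H h h0 h1 Sl hS a.2.1 a.2.2))
      fun _ _ _ _ _ _ _ _ _ _ _ _ hW e => hW.2.e e⟩

/-- **Both rates, void.** -/
theorem PartV.w (H : PartV κ Φ Adm β) (H' : PartB κ Φ Adm β) : PartW r κ Φ :=
  CasP.rt Adm β H.cas H'.cas

theorem PartW.num (H : PartW r κ Φ) (H' : PartW r κ Φ') {Ψ : (ℕ → ℝ) → Prop}
    (h : ∀ Sl, Ψ Sl → Φ Sl ∨ Φ' Sl) : PartW r κ Ψ := (CasP.num H H').mono h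

end

/-- Both kinds of `u` in one property. -/
theorem part_two {r : ℕ} {κ κ' : ℕ → Kg} {Φ Φ' : (ℕ → ℝ) → Prop} (H : PartW r κ Φ)
    (H' : PartW r κ' Φ') : ∃ (ι : Type) (_ : Countable ι) (Q : PropG 4 ι), AePG 4 Q ∧ HerQ Q ∧
      ∀ h : ℝ, 0 < h → h ≤ 1 → ∀ Sl : ℕ → ℝ, (Φ Sl → CasW 4 {r} h Sl κ Q (TruW 4)) ∧
        (Φ' Sl → CasW 4 {r} h Sl κ' Q (TruW 4)) := by
  obtain ⟨ι, hc, Q, hQ, hh, H⟩ := H
  obtain ⟨ι', hc', Q', hQ', hh', H'⟩ := H'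
  exact ⟨ι ⊕ ι', inferInstance, sumQ Q Q', aePG_sum hQ hh hQ', her_sum hh hh',
    fun h h0 h1 Sl => ⟨fun hS => (H h h0 h1 Sl hS ()).inl, fun hS => (H' h h0 h1 Sl hS ()).inr⟩⟩

/-- **`LV0A 4`** from the cases of both kinds of `u`. -/
theorem lV0A_of_w (hs : PartW 2 (kg4 .one .one .stp .sta) NAs)
    (ht : PartW 2 (kg4 .one .one .thin .sta) NAt) : LV0A 4 := by
  obtain ⟨ι, hc, Q, hQ, -, H⟩ := part_two hs ht
  refine lV0A_of_c hQ fun h h0 h1 Sl k e0 e1 e3 hk => ?_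
  rcases hk with ⟨rfl, h2⟩ | ⟨rfl, h2⟩
  · exact (H h h0 h1 Sl).2 ⟨e0, e1, h2, e3⟩
  · exact (H h h0 h1 Sl).1 ⟨e0, e1, h2, e3⟩

/-- **`LV0B 4`** from the cases of both kinds of `u`. -/
theorem lV0B_of_w (hs : PartW 1 (kg4 .one .stp .one .sta) NBs)
    (ht : PartW 1 (kg4 .one .thin .one .sta) NBt) : LV0B 4 := by
  obtain ⟨ι, hc, Q, hQ, -, H⟩ := part_two hs ht
  refine lV0B_of_c hQ fun h h0 h1 Sl k e0 e2 e3 hk => ?_
  rcases hk with ⟨rfl, h2⟩ | ⟨rfl, h2⟩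
  · exact (H h h0 h1 Sl).2 ⟨e0, e2, h2, e3⟩
  · exact (H h h0 h1 Sl).1 ⟨e0, e2, h2, e3⟩

/-- **`LV01 4`** from the cases of both kinds of `u`, at both places. -/
theorem lV01_of_w (hs : PartW 2 (kg4 .one .one .stp .one) N1s)
    (ht : PartW 2 (kg4 .one .one .thin .one) N1t) (hs' : PartW 1 (kg4 .one .stp .one .one) M1s)
    (ht' : PartW 1 (kg4 .one .thin .one .one) M1t) : LV01 4 := by
  obtain ⟨ι, hc, Q, hQ, hh, H⟩ := part_two hs ht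
  obtain ⟨ι', hc', Q', hQ', -, H'⟩ := part_two hs' ht'
  refine lV01_of_c (aePG_sum hQ hh hQ') (fun h h0 h1 Sl k e0 e1 e3 hk => ?_)
    (fun h h0 h1 Sl k e0 e2 e3 hk => ?_)
  · rcases hk with ⟨rfl, h2⟩ | ⟨rfl, h2⟩
    · exact ((H h h0 h1 Sl).2 ⟨e0, e1, h2, e3⟩).inl
    · exact ((H h h0 h1 Sl).1 ⟨e0, e1, h2, e3⟩).inl
  · rcases hk with ⟨rfl, h2⟩ | ⟨rfl, h2⟩
    · exact ((H' h h0 h1 Sl).2 ⟨e0, e2, h2, e3⟩).inr
    · exact ((H' h h0 h1 Sl).1 ⟨e0, e2, h2, e3⟩).inr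

/-! ### The sheets -/

/-- **The parts of `LV0A 4`**: `a` is the slope of `u`, `b` the slope of the target. -/
structure ShA (Adm : (ℕ → ℝ) → AltJ → PropW 4) (β : (ℕ → ℝ) → ℝ) : Prop where
  /-- `u` steep, full rate. -/
  sA : PartA 2 (kg4 .one .one .stp .sta) NAs Adm β
  /-- `u` steep, small rate, `a < b`: the chain. -/
  sB : PartB (kg4 .one .one .stp .sta) (fun Sl => NAs Sl ∧ Sl 2 < Sl 3) Adm β
  /-- `u` steep, small rate, `b ≤ a`: flatness. -/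
  sC : PartC 2 (kg4 .one .one .stp .sta) (fun Sl => NAs Sl ∧ Sl 3 ≤ Sl 2) Adm β
  /-- `u` thin, full rate, `a < b`. -/
  tA1 : PartV (kg4 .one .one .thin .sta) (fun Sl => NAt Sl ∧ Sl 2 < Sl 3) Adm β
  /-- `u` thin, full rate, `a = b`. -/
  tA2 : PartV (kg4 .one .one .thin .sta) (fun Sl => NAt Sl ∧ Sl 2 = Sl 3) Adm β
  /-- `u` thin, full rate, `b < a`. -/
  tA3 : PartV (kg4 .one .one .thin .sta) (fun Sl => NAt Sl ∧ Sl 3 < Sl 2) Adm β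
  /-- `u` thin, small rate, `a < b`: the chain. -/
  tB1 : PartB (kg4 .one .one .thin .sta) (fun Sl => NAt Sl ∧ Sl 2 < Sl 3) Adm β
  /-- `u` thin, small rate, `a = b`. -/
  tB2 : PartB (kg4 .one .one .thin .sta) (fun Sl => NAt Sl ∧ Sl 2 = Sl 3) Adm β
  /-- `u` thin, small rate, `b < a`. -/
  tB3 : PartB (kg4 .one .one .thin .sta) (fun Sl => NAt Sl ∧ Sl 3 < Sl 2) Adm β

/-- **`LV0A 4` from its parts.** -/
theorem lV0A_of1 {Adm : (ℕ → ℝ) → AltJ → PropW 4} {β : (ℕ → ℝ) → ℝ} (H : ShA Adm β) :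
    LV0A 4 := by
  have hκ : ∀ l < 2, kg4 .one .one .stp .sta l = .one := fun l hl => by
    interval_cases l <;> rfl
  refine lV0A_of_w ?_ ?_
  · refine CasP.rt Adm β (H.sA.cas (by norm_num) (by norm_num) hκ rfl fun Sl hS => hS.2.2.1) ?_
    refine (CasP.num H.sB.cas (H.sC.cas (by norm_num) (by norm_num) hκ rfl
      fun Sl hS => hS.1.2.2.1)).mono fun Sl hS => ?_
    rcases lt_or_ge (Sl 2) (Sl 3) with h | h
    · exact Or.inl ⟨hS, h⟩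
    · exact Or.inr ⟨hS, h⟩
  · refine ((H.tA1.w H.tB1).num (H.tA2.w H.tB2) fun _ h => h).num (H.tA3.w H.tB3) fun Sl hS => ?_
    rcases lt_trichotomy (Sl 2) (Sl 3) with h | h | h
    · exact Or.inl (Or.inl ⟨hS, h⟩)
    · exact Or.inl (Or.inr ⟨hS, h⟩)
    · exact Or.inr ⟨hS, h⟩

/-- **The parts of `LV01 4`, first half**: `u` over both contact coordinates; `b = 1 < a`. -/
structure Sh1 (Adm : (ℕ → ℝ) → AltJ → PropW 4) (β : (ℕ → ℝ) → ℝ) : Prop where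
  /-- `u` steep, full rate. -/
  sA : PartA 2 (kg4 .one .one .stp .one) N1s Adm β
  /-- `u` steep, small rate. -/
  sC : PartC 2 (kg4 .one .one .stp .one) N1s Adm β
  /-- `u` thin, full rate. -/
  tA : PartV (kg4 .one .one .thin .one) N1t Adm β
  /-- `u` thin, small rate. -/
  tB : PartB (kg4 .one .one .thin .one) N1t Adm β

/-- **The parts of the order** `c 0, u, c 2` below a static target. -/
structure ShB : Prop where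
  /-- `u` steep. -/
  s : PartW 1 (kg4 .one .stp .one .sta) NBs
  /-- `u` thin. -/
  t : PartW 1 (kg4 .one .thin .one .sta) NBt

/-- **The parts of the order** `c 0, u, c 2` below a target of slope one. -/
structure Sh1B : Prop where
  /-- `u` steep. -/
  s : PartW 1 (kg4 .one .stp .one .one) M1s
  /-- `u` thin. -/
  t : PartW 1 (kg4 .one .thin .one .one) M1t

/-- **`LV0B 4` from its parts.** -/
theorem lV0B_of1 (H : ShB) : LV0B 4 := lV0B_of_w H.s H.t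

/-- **`LV01 4` from its parts.** -/
theorem lV01_of1 {Adm : (ℕ → ℝ) → AltJ → PropW 4} {β : (ℕ → ℝ) → ℝ} (H : Sh1 Adm β)
    (H' : Sh1B) : LV01 4 := by
  have hκ : ∀ l < 2, kg4 .one .one .stp .one l = .one := fun l hl => by
    interval_cases l <;> rfl
  exact lV01_of_w (CasP.rt Adm β (H.sA.cas (by norm_num) (by norm_num) hκ rfl
    fun Sl hS => hS.2.2.1) (H.sC.cas (by norm_num) (by norm_num) hκ rfl
    fun Sl hS => hS.2.2.1)) (H.tA.w H.tB) H'.s H'.t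

end Pool.ASM
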